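import Pool.Agent.Q170.WD.St

/-!
# Project WD of helper170, job KRULL
-/

set_option autoImplicit false
set_option linter.style.haveILetI false

namespace Pool.Agent.Q130.WD

open MvPolynomial Pool.Agent.Q170.WD

/-- the transcendence degree does not change in an injective integral extension -/
theorem trdeg_int {L A B : Type} [Field L] [CommRing A] [Nontrivial A] [CommRing B] [IsDomain B]
    [Algebra L A] [Algebra L B] [Algebra A B] [IsScalarTower L A B]
    (hg : Function.Injective (algebraMap A B)) [Algebra.IsIntegral A B] :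
    Algebra.trdeg L B = Algebra.trdeg L A := by
  haveI : FaithfulSMul A B := (faithfulSMul_iff_algebraMap_injective A B).2 hg
  have h := _root_.trdeg_add_eq L A (A := B)
  rw [_root_.trdeg_eq_zero (R := A) (A := B), add_zero] at h
  exact h.symm

theorem krull_dom (hHYP : S_HYPDIM) {L A : Type} [Field L] [CommRing A] [IsDomain A] [Algebra L A]
    [Algebra.FiniteType L A] (f : A) (hf : f ≠ 0) (Q : Ideal A)
    (hQ : Q ∈ (Ideal.span {f}).minimalPrimes) (d : ℕ) (hd : Algebra.trdeg L A = (d : Cardinal)) :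
    ∃ k : ℕ, d = k + 1 ∧ Algebra.trdeg L (A ⧸ Q) = (k : Cardinal) := by
  classical
  obtain ⟨s, g, hinj, hfin⟩ := exists_finite_inj_algHom_of_fg L A
  letI : Algebra (MvPolynomial (Fin s) L) A := g.toRingHom.toAlgebra
  haveI : IsScalarTower L (MvPolynomial (Fin s) L) A :=
    IsScalarTower.of_algebraMap_eq fun x => (g.commutes x).symm
  have hmap : Function.Injective (algebraMap (MvPolynomial (Fin s) L) A) := hinj
  haveI : Module.Finite (MvPolynomial (Fin s) L) A := hfin
  haveI : Algebra.IsIntegral (MvPolynomial (Fin s) L) A := Algebra.IsIntegral.of_finite _ _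
  haveI : FaithfulSMul (MvPolynomial (Fin s) L) A :=
    (faithfulSMul_iff_algebraMap_injective _ _).2 hmap
  haveI : IsNoetherianRing A := Algebra.FiniteType.isNoetherianRing L A
  -- `s = d`
  have hsd : s = d := by
    have h1 := trdeg_int (L := L) (A := MvPolynomial (Fin s) L) (B := A) hmap
    rw [hd, MvPolynomial.trdeg_of_isDomain] at h1
    simp at h1
    exact h1.symm
  haveI hQp : Q.IsPrime := hQ.1.1
  have hfQ : f ∈ Q := hQ.1.2 (Ideal.mem_span_singleton_self f)
  have hQ0 : Q ≠ ⊥ := fun h => hf (by rw [h] at hfQ; exact hfQ)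
  have hht : Q.height ≤ 1 := Ideal.height_le_one_of_isPrincipal_of_mem_minimalPrimes _ _ hQ
  -- the contraction
  have hq0 : Q.under (MvPolynomial (Fin s) L) ≠ ⊥ := Ideal.comap_ne_bot_of_integral_mem hf hfQ
    (Algebra.IsIntegral.isIntegral f)
  obtain ⟨π, hπq, hπ⟩ := Ideal.IsPrime.exists_mem_prime_of_ne_bot
    (inferInstance : (Q.under (MvPolynomial (Fin s) L)).IsPrime) hq0
  haveI hπp : (Ideal.span {π}).IsPrime := (Ideal.span_singleton_prime hπ.ne_zero).2 hπ
  have hle : Ideal.span {π} ≤ Q.under (MvPolynomial (Fin s) L) :=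
    (Ideal.span_singleton_le_iff_mem _).2 hπq
  have heq : Ideal.span {π} = Q.under (MvPolynomial (Fin s) L) := by
    by_contra hne
    have hlt : Ideal.span {π} < Q.under (MvPolynomial (Fin s) L) := lt_of_le_of_ne hle hne
    obtain ⟨Q1, h1, h2, h3⟩ := Ideal.exists_ideal_lt_liesOver_of_lt (p := Ideal.span {π})
      (q := Q.under (MvPolynomial (Fin s) L)) Q hlt
    have hQ1 : Q1 ≠ ⊥ := by
      intro h
      have h4 := h3.over
      rw [h] at h4
      have h5 : π ∈ Ideal.span {π} := Ideal.mem_span_singleton_self π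
      rw [h4] at h5
      have h6 : algebraMap (MvPolynomial (Fin s) L) A π = 0 := h5
      exact hπ.ne_zero (hmap (by rw [h6, map_zero]))
    have h7 : (⊥ : Ideal A) < Q1 := bot_lt_iff_ne_bot.2 hQ1
    haveI := h2
    have h8 : (⊥ : Ideal A).height + 1 ≤ Q1.height := Ideal.height_add_one_le_of_lt_of_isPrime h7
    have h9 : Q1.height + 1 ≤ Q.height := Ideal.height_add_one_le_of_lt_of_isPrime h1
    have h10 : Q.height ≤ 1 := hht
    have h11 : (1 : ℕ∞) ≤ Q1.height := le_trans (by simp) h8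
    have h12 : (2 : ℕ∞) ≤ 1 := by
      calc (2 : ℕ∞) = 1 + 1 := by norm_num
        _ ≤ Q1.height + 1 := by gcongr
        _ ≤ Q.height := h9
        _ ≤ 1 := h10
    exact absurd h12 (by decide)
  obtain ⟨k, hk, hk2⟩ := hHYP L s π hπ.irreducible
  refine ⟨k, by omega, ?_⟩
  haveI : Q.LiesOver (Ideal.span {π}) := ⟨heq⟩
  haveI : IsDomain (A ⧸ Q) := Ideal.Quotient.isDomain Q
  haveI : Nontrivial (MvPolynomial (Fin s) L ⧸ Ideal.span {π}) :=
    Ideal.Quotient.nontrivial_iff.2 hπp.ne_top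
  haveI : IsScalarTower L (MvPolynomial (Fin s) L ⧸ Ideal.span {π}) (A ⧸ Q) := inferInstance
  haveI : Algebra.IsIntegral (MvPolynomial (Fin s) L ⧸ Ideal.span {π}) (A ⧸ Q) := inferInstance
  rw [trdeg_int (L := L) (A := MvPolynomial (Fin s) L ⧸ Ideal.span {π}) (B := A ⧸ Q)
    (FaithfulSMul.algebraMap_injective (MvPolynomial (Fin s) L ⧸ Ideal.span {π}) (A ⧸ Q))]
  exact hk2

/-- **JOB KRULL.** -/
theorem t_KRULL (hHYP : S_HYPDIM) : S_KRULL := by
  intro L _ N P f Q d hP hf hQ hd
  haveI := hP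
  haveI : IsDomain (MvPolynomial (Fin N) L ⧸ P) := Ideal.Quotient.isDomain P
  have hPQ : P ≤ Q := le_trans le_sup_left hQ.1.2
  have hf0 : Ideal.Quotient.mk P f ≠ 0 := fun h => hf (Ideal.Quotient.eq_zero_iff_mem.1 h)
  have hQ' : Q.map (Ideal.Quotient.mk P) ∈ (Ideal.span {Ideal.Quotient.mk P f}).minimalPrimes := by
    have h1 := Ideal.minimalPrimes_map_of_surjective (f := Ideal.Quotient.mk P)
      Ideal.Quotient.mk_surjective (Ideal.span {f})
    rw [Ideal.map_span, Set.image_singleton] at h1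
    rw [h1]
    refine ⟨Q, ?_, rfl⟩
    rw [Ideal.mk_ker, sup_comm]
    exact hQ
  obtain ⟨k, hk, hk2⟩ := krull_dom (L := L) hHYP (Ideal.Quotient.mk P f) hf0 _ hQ' d hd
  refine ⟨k, hk, ?_⟩
  have h3 : Algebra.trdeg L ((MvPolynomial (Fin N) L ⧸ P) ⧸ Q.map (Ideal.Quotient.mkₐ L P)) =
      Algebra.trdeg L (MvPolynomial (Fin N) L ⧸ Q) :=
    AlgEquiv.trdeg_eq (DoubleQuot.quotQuotEquivQuotOfLEₐ L hPQ)
  exact h3.symm.trans hk2

end Pool.Agent.Q130.WD
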